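import Pool.Graph.R_pool_sql_team_ae5b0c61.H7.Isc1
import Pool.Graph.R_pool_sql_team_ae5b0c61.H28.VecMat

/-!
# Highly connected binary matroids without removable circuits

From an intersecting binary code with large dual distance we get, for every `t`, a binary matroid
which is Tutte `t`-connected, all of whose circuits and cocircuits have at least `t` elements, and
in which any two circuits meet.
-/

set_option autoImplicit false

namespace Pool.Agent.KS6_29.RC

open Set Pool.Agent.H7.Isc Pool.Agent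

variable {α : Type}

/-- `(X, Y)` is a `k`-separation of `M` (Tutte): a partition of the ground set into two sets with
at least `k` elements each such that `r(X) + r(Y) < r(M) + k`. -/
def IsSeparation (M : Matroid α) (k : ℕ) (X Y : Set α) : Prop :=
  X ∪ Y = M.E ∧ Disjoint X Y ∧ k ≤ X.ncard ∧ k ≤ Y.ncard ∧ M.eRk X + M.eRk Y < M.eRank + k

/-- `M` is Tutte `t`-connected: it has no `k`-separation with `1 ≤ k < t`. -/
def TutteConnected (t : ℕ) (M : Matroid α) : Prop :=
  ∀ k, 1 ≤ k → k < t → ∀ X Y : Set α, ¬ IsSeparation M k X Y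

/-- one side of a separation is independent -/
theorem one_side {M : Matroid α} (hfin : M.E.Finite) {t k : ℕ} (hkt : k < t)
    (hco : ∀ K, M.IsCocircuit K → t ≤ K.ncard) {X Y : Set α} (hXY : X ∪ Y = M.E)
    (hX : M.Indep X) (hk : k ≤ X.ncard) : M.eRank + k ≤ M.eRk X + M.eRk Y := by
  have hXE : X ⊆ M.E := hXY ▸ subset_union_left
  have hXf : X.Finite := hfin.subset hXE
  obtain ⟨X', hX', hc⟩ := Set.exists_subset_card_eq hk
  have hX'f : X'.Finite := hXf.subset hX'
  have hco' : M.Coindep X' := by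
    by_contra h
    have hd : M✶.Dep X' := by
      rw [Matroid.dep_iff]
      exact ⟨h, hX'.trans hXE⟩
    obtain ⟨K, hK, hK'⟩ := hd.exists_isCircuit_subset
    have h1 := hco K hK'
    have h2 := Set.ncard_le_ncard hK hX'f
    omega
  have hsp := hco'.compl_spanning
  have h1 : M.E \ X' ⊆ Y ∪ (X \ X') := by
    intro e he
    rcases (hXY ▸ he.1 : e ∈ X ∪ Y) with h | h
    · exact Or.inr ⟨h, he.2⟩
    · exact Or.inl h
  have h2 : M.eRank ≤ M.eRk Y + (X \ X').encard := by
    rw [← hsp.eRk_eq]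
    exact (M.eRk_mono h1).trans (M.eRk_union_le_eRk_add_encard _ _)
  have h3 : (X \ X').encard + k = X.encard := by
    rw [← Set.encard_sdiff_add_encard_of_subset hX', ← hc, hX'f.cast_ncard_eq]
  calc M.eRank + k ≤ M.eRk Y + (X \ X').encard + k := by gcongr
    _ = M.eRk Y + X.encard := by rw [add_assoc, h3]
    _ = M.eRk X + M.eRk Y := by rw [hX.eRk_eq_encard, add_comm]

/-- If any two circuits meet and all cocircuits have at least `t` elements, the matroid is Tutte
`t`-connected. -/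
theorem tutte {M : Matroid α} (hfin : M.E.Finite) {t : ℕ}
    (hco : ∀ K, M.IsCocircuit K → t ≤ K.ncard)
    (hint : ∀ C D, M.IsCircuit C → M.IsCircuit D → (C ∩ D).Nonempty) : TutteConnected t M := by
  rintro k - hkt X Y ⟨hXY, hd, hkX, hkY, hlt⟩
  refine absurd hlt (not_lt.2 ?_)
  by_cases hX : M.Indep X
  · exact one_side hfin hkt hco hXY hX hkX
  by_cases hY : M.Indep Y
  · rw [add_comm (M.eRk X)]
    exact one_side hfin hkt hco (by rw [union_comm]; exact hXY) hY hkY
  exfalso
  have hXE : X ⊆ M.E := hXY ▸ subset_union_left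
  have hYE : Y ⊆ M.E := hXY ▸ subset_union_right
  obtain ⟨C, hC, hC'⟩ := (Matroid.dep_iff.2 ⟨hX, hXE⟩).exists_isCircuit_subset
  obtain ⟨D, hD, hD'⟩ := (Matroid.dep_iff.2 ⟨hY, hYE⟩).exists_isCircuit_subset
  obtain ⟨e, he, he'⟩ := hint C D hC' hD'
  exact hd.le_bot ⟨hC he, hD he'⟩

/-- the evaluation map of the code on a set of coordinates -/
def ev {k n : ℕ} (x : Fin n → W k) (S : Finset (Fin n)) : W k →ₗ[ZMod 2] (S → ZMod 2) where
  toFun φ i := φ ⬝ᵥ x i
  map_add' a b := by funext i; simp [add_dotProduct]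
  map_smul' a b := by funext i; simp [smul_dotProduct]

theorem exists_vanish {k n : ℕ} (x : Fin n → W k) (S : Finset (Fin n)) (h : S.card < k) :
    ∃ φ : W k, φ ≠ 0 ∧ ∀ i ∈ S, φ ⬝ᵥ x i = 0 := by
  have h1 : LinearMap.ker (ev x S) ≠ ⊥ := by
    refine LinearMap.ker_ne_bot_of_finrank_lt ?_
    simpa [Module.finrank_pi] using h
  obtain ⟨φ, h2, h3⟩ := (Submodule.ne_bot_iff _).1 h1
  refine ⟨φ, h3, fun i hi => ?_⟩
  have := congrFun (LinearMap.mem_ker.1 h2) ⟨i, hi⟩
  simpa [ev] using this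

/-- two independent codewords vanishing on a small set -/
theorem exists_vanish2 {k n : ℕ} (x : Fin n → W k) (S : Finset (Fin n)) (φ : W k)
    (h : S.card + 1 < k) (h0 : φ ≠ 0) : ∃ ψ : W k, ψ ≠ 0 ∧ ψ ≠ φ ∧ ∀ i ∈ S, ψ ⬝ᵥ x i = 0 := by
  obtain ⟨j, hj⟩ := Function.ne_iff.1 h0
  let f : W k →ₗ[ZMod 2] ((S → ZMod 2) × ZMod 2) := (ev x S).prod (LinearMap.proj j)
  have h1 : LinearMap.ker f ≠ ⊥ := by
    refine LinearMap.ker_ne_bot_of_finrank_lt ?_
    simpa [Module.finrank_pi] using h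
  obtain ⟨ψ, h2, h3⟩ := (Submodule.ne_bot_iff _).1 h1
  have h4 := LinearMap.mem_ker.1 h2
  have h5 : ev x S ψ = 0 := congrArg Prod.fst h4
  have h6 : ψ j = 0 := congrArg Prod.snd h4
  refine ⟨ψ, h3, ?_, fun i hi => ?_⟩
  · rintro rfl
    exact hj h6
  · have := congrFun h5 ⟨i, hi⟩
    simpa [ev] using this

/-- the matroid whose circuits are the supports of the nonzero words of an intersecting code with
large dual distance -/
theorem exists_matroid (t : ℕ) : ∃ (n : ℕ) (M : Matroid (Fin n)), t + 2 ≤ n ∧ M.E = Set.univ ∧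
    (∃ (m : ℕ) (v : Fin n → (Fin m → ZMod 2)), ∀ I, M.Indep I ↔ LinearIndepOn (ZMod 2) v I) ∧
    (∀ e f, ∃ C, M.IsCircuit C ∧ e ∈ C ∧ f ∈ C) ∧
    (∀ C, M.IsCircuit C → t ≤ C.ncard) ∧
    (∀ K, M.IsCocircuit K → t ≤ K.ncard) ∧
    (∀ C D, M.IsCircuit C → M.IsCircuit D → (C ∩ D).Nonempty) ∧
    (∀ D, M.IsCircuit D → max t 2 ≤ (M.E \ D).ncard) := by
  classical
  obtain ⟨k, n, x, hk, hA, hB⟩ := exists_code (t + 2)
  obtain ⟨m, v, hv⟩ := exists_rep x
  let M : Matroid (Fin n) := H28.VecMat.vec (ZMod 2) v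
  have hE : M.E = Set.univ := rfl
  have hI : ∀ I, M.Indep I ↔ ∀ φ : W k, (∀ i, i ∉ I → φ ⬝ᵥ x i = 0) → φ = 0 := by
    intro I
    rw [H28.VecMat.vec_indep, hv]
    refine forall_congr' fun φ => imp_congr_right fun _ => ⟨fun h => ?_, fun h i => by simp [h]⟩
    by_contra h0
    obtain ⟨i, hi, -⟩ := hB φ φ h0 h0
    rw [h i] at hi
    exact zero_ne_one hi
  have circ : ∀ φ : W k, φ ≠ 0 → M.IsCircuit {i | φ ⬝ᵥ x i = 1} := by
    intro φ h0
    rw [Matroid.isCircuit_iff_forall_ssubset]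
    refine ⟨⟨fun h => h0 ((hI _).1 h φ fun i hi => (z2 _).resolve_right hi), by simp [hE]⟩,
      fun J hJ => (hI J).2 fun ψ hψ => ?_⟩
    by_contra h1
    by_cases e : ψ = φ
    · obtain ⟨i, hi, hi'⟩ := Set.exists_of_ssubset hJ
      have := hψ i hi'
      rw [e, show φ ⬝ᵥ x i = 1 from hi] at this
      exact one_ne_zero this
    · obtain ⟨i, h3, h4⟩ := hB ψ (ψ - φ) h1 (sub_ne_zero.2 e)
      have hiJ : i ∈ J := by
        by_contra hn
        rw [hψ i hn] at h3
        exact zero_ne_one h3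
      rw [sub_dotProduct, h3, show φ ⬝ᵥ x i = 1 from hJ.subset hiJ] at h4
      simp at h4
  have circ' : ∀ C, M.IsCircuit C → ∃ φ : W k, φ ≠ 0 ∧ C = {i | φ ⬝ᵥ x i = 1} := by
    intro C hC
    have := hC.not_indep
    rw [hI] at this
    push Not at this
    obtain ⟨φ, h1, h2⟩ := this
    refine ⟨φ, h2, (hC.eq_of_dep_subset (circ φ h2).dep fun i hi => ?_).symm⟩
    by_contra hn
    have := h1 i hn
    rw [show φ ⬝ᵥ x i = 1 from hi] at this
    exact one_ne_zero this
  -- the length is at least `t + 2`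
  have hn : t + 2 ≤ n := by
    by_contra h
    obtain ⟨i, j, hij, -, -⟩ := two_out hk hB 0
    have hc : (Finset.univ : Finset (Fin n)).card < t + 2 := by simp; omega
    obtain ⟨φ, h1, h2⟩ := exists_sep hA Finset.univ hc (Finset.mem_univ i)
    obtain ⟨ψ, h3, h4⟩ := exists_sep hA Finset.univ hc (Finset.mem_univ j)
    obtain ⟨l, h5, h6⟩ := hB φ ψ (by rintro rfl; simp at h1) (by rintro rfl; simp at h3)
    have h7 : l = i := by
      by_contra h
      rw [h2 l (Finset.mem_univ _) h] at h5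
      exact zero_ne_one h5
    have h8 : l = j := by
      by_contra h
      rw [h4 l (Finset.mem_univ _) h] at h6
      exact zero_ne_one h6
    exact hij (h7.symm.trans h8)
  -- the dimension is at least `t + 1`
  have hkt : t + 1 ≤ k := by
    obtain ⟨S, -, hS⟩ := Finset.exists_subset_card_eq
      (s := (Finset.univ : Finset (Fin n))) (n := t + 1) (by simp; omega)
    have hsur : Function.Surjective (ev x S) := by
      have hs : ∀ e : S, ∃ φ : W k, ev x S φ = Pi.single e 1 := by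
        rintro ⟨e, he⟩
        obtain ⟨φ, h1, h2⟩ := exists_sep hA S (by omega) he
        refine ⟨φ, funext fun i => ?_⟩
        by_cases h : i = ⟨e, he⟩
        · subst h; simpa [ev] using h1
        · rw [Pi.single_eq_of_ne h]
          exact h2 i i.2 fun h' => h (Subtype.ext h')
      choose g hg using hs
      intro y
      refine ⟨∑ e, y e • g e, ?_⟩
      rw [map_sum]
      simp only [map_smul, hg]
      funext i
      simp [Finset.sum_apply, Pi.single_apply]
    have h1 := Fintype.card_le_of_surjective _ hsur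
    rw [Fintype.card_fun, Fintype.card_coe, hS, ZMod.card, card_W] at h1
    exact (Nat.pow_le_pow_iff_right (by omega)).1 h1
  refine ⟨n, M, hn, hE, ⟨m, v, fun I => by simp [M]⟩, ?_, ?_, ?_, ?_, ?_⟩
  · intro e f
    have he : x e ≠ 0 := by simpa using hA {e} (by simp) (by simp)
    have hf : x f ≠ 0 := by simpa using hA {f} (by simp) (by simp)
    obtain ⟨φ, h1, h2⟩ := exists_both he hf
    rw [dotProduct_comm] at h1 h2
    refine ⟨_, circ φ ?_, h1, h2⟩
    rintro rfl
    simp at h1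
  · intro C hC
    obtain ⟨φ, h0, rfl⟩ := circ' C hC
    by_contra hlt
    obtain ⟨ψ, h1, h2⟩ := exists_vanish x (Finset.univ.filter fun i => φ ⬝ᵥ x i = 1) (by
      rw [Set.ncard_eq_toFinset_card', Set.toFinset_ofPred] at hlt
      omega)
    obtain ⟨l, h3, h4⟩ := hB φ ψ h0 h1
    rw [h2 l (by simpa using h3)] at h4
    exact zero_ne_one h4
  · intro K hK
    by_contra hlt
    obtain ⟨e, he⟩ := hK.nonempty
    obtain ⟨φ, h1, h2⟩ := exists_sep hA K.toFinset
      (by rw [← Set.ncard_eq_toFinset_card']; omega) (Set.mem_toFinset.2 he)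
    have h0 : φ ≠ 0 := by
      rintro rfl
      simp at h1
    refine (circ φ h0).inter_isCocircuit_ne_singleton hK (e := e) ?_
    ext i
    refine ⟨fun hi => ?_, fun hi => by rw [hi]; exact ⟨h1, he⟩⟩
    by_contra hn
    have := h2 i (Set.mem_toFinset.2 hi.2) hn
    rw [show φ ⬝ᵥ x i = 1 from hi.1] at this
    exact one_ne_zero this
  · intro C D hC hD
    obtain ⟨φ, h0, rfl⟩ := circ' C hC
    obtain ⟨ψ, h1, rfl⟩ := circ' D hD
    obtain ⟨l, h2, h3⟩ := hB φ ψ h0 h1
    exact ⟨l, h2, h3⟩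
  · intro D hD
    obtain ⟨φ, h0, rfl⟩ := circ' D hD
    have h1 : k ≤ (Finset.univ.filter fun i => ¬ φ ⬝ᵥ x i = 1).card + 1 := by
      by_contra hlt
      obtain ⟨ψ, h2, h3, h4⟩ := exists_vanish2 x (Finset.univ.filter fun i => ¬ φ ⬝ᵥ x i = 1) φ
        (by omega) h0
      obtain ⟨l, h5, h6⟩ := hB ψ (ψ - φ) h2 (sub_ne_zero.2 h3)
      by_cases h : φ ⬝ᵥ x l = 1
      · rw [sub_dotProduct, h5, h, sub_self] at h6
        exact zero_ne_one h6
      · rw [h4 l (by simpa using h)] at h5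
        exact zero_ne_one h5
    have h2 : (M.E \ {i | φ ⬝ᵥ x i = 1}).ncard =
        (Finset.univ.filter fun i => ¬ φ ⬝ᵥ x i = 1).card := by
      rw [← Set.ncard_coe_finset]
      congr 1
      ext i
      simp [hE]
    rw [h2]
    omega

end Pool.Agent.KS6_29.RC
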